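import Mathlib

set_option autoImplicit false
set_option maxHeartbeats 4000000

namespace Pool.Agent.Results.MP_a93e77_co.NotCharacterised

/-- the connection set `{±1, ±3, ±4, ±5}` in `ℤ/17` -/
def S : Finset (ZMod 17) := {1, 3, 4, 5, 12, 13, 14, 16}

/-- the circulant graph on `ℤ/17` with connection set `S` -/
def G17 : SimpleGraph (ZMod 17) where
  Adj a b := a - b ∈ S
  symm := ⟨by
    intro a b h
    have key : ∀ d : ZMod 17, d ∈ S → -d ∈ S := by decide
    have := key _ h
    rwa [neg_sub] at this⟩
  loopless := ⟨by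
    intro a h
    rw [sub_self] at h
    exact absurd h (by decide)⟩

instance : DecidableRel G17.Adj := fun a b => inferInstanceAs (Decidable (a - b ∈ S))

/-- the antimorphism `x ↦ 9 (x - u) + v` -/
def perm (u v : ZMod 17) : Equiv.Perm (ZMod 17) where
  toFun x := 9 * (x - u) + v
  invFun x := 2 * (x - v) + u
  left_inv := by
    intro x
    have h18 : (2 * 9 : ZMod 17) = 1 := by decide
    have h2 : 2 * (9 * (x - u) + v - v) + u = (2 * 9) * (x - u) + u := by ring
    change 2 * (9 * (x - u) + v - v) + u = x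
    rw [h2, h18]; ring
  right_inv := by
    intro x
    have h18 : (9 * 2 : ZMod 17) = 1 := by decide
    have h2 : 9 * (2 * (x - v) + u - u) + v = (9 * 2) * (x - v) + v := by ring
    change 9 * (2 * (x - v) + u - u) + v = x
    rw [h2, h18]; ring

def iso (u v : ZMod 17) : G17 ≃g G17ᶜ where
  toEquiv := perm u v
  map_rel_iff' := by
    intro a b
    have key : ∀ d : ZMod 17, d ≠ 0 → (9 * d ∉ S ↔ d ∈ S) := by decide
    have h0 : (0 : ZMod 17) ∉ S := by decide
    have hd : 9 * (a - u) + v - (9 * (b - u) + v) = 9 * (a - b) := by ring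
    rw [SimpleGraph.compl_adj]
    change ((perm u v) a ≠ (perm u v) b ∧ ¬ ((9 * (a - u) + v) - (9 * (b - u) + v) ∈ S)) ↔ a - b ∈ S
    rw [hd]
    by_cases hab : a = b
    · subst hab
      simp [h0]
    · have h1 : (perm u v) a ≠ (perm u v) b := fun h => hab ((perm u v).injective h)
      have h2 : a - b ≠ 0 := sub_ne_zero.mpr hab
      simp only [ne_eq, h1, not_false_eq_true, true_and]
      exact key _ h2

theorem iso_apply (u v : ZMod 17) : iso u v u = v := by
  change 9 * (u - u) + v = v
  ring

theorem reg : G17.IsRegularOfDegree 8 := by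
  unfold SimpleGraph.IsRegularOfDegree
  decide +kernel

/-- **Main result.** It is not true that a finite regular self-complementary graph `G` is strongly
regular if and only if every vertex is fixed by some isomorphism-permutation (`F(G) = V(G)`) and
every edge `uv` has `P u = v` or `P v = u` for some isomorphism-permutation `P`
(`N(G) = E(G)`). -/
theorem result :
    ¬ (∀ (V : Type) [Fintype V] [DecidableEq V] (G : SimpleGraph V) [DecidableRel G.Adj] (d : ℕ),
        G.IsRegularOfDegree d → Nonempty (G ≃g Gᶜ) →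
        ((∃ n k l m : ℕ, G.IsSRGWith n k l m) ↔
          ((∀ v : V, ∃ P : G ≃g Gᶜ, P v = v) ∧
           (∀ u v : V, G.Adj u v → ∃ P : G ≃g Gᶜ, P u = v ∨ P v = u)))) := by
  intro hall
  have h := hall (ZMod 17) G17 8 reg ⟨iso 0 0⟩
  obtain ⟨n, k, l, m, hs⟩ := h.mpr
    ⟨fun v => ⟨iso v v, iso_apply v v⟩, fun u v _ => ⟨iso u v, Or.inl (iso_apply u v)⟩⟩
  have h1 := hs.of_adj 0 1 (by decide +kernel)
  have h3 := hs.of_adj 0 3 (by decide +kernel)
  have h4 : Fintype.card (G17.commonNeighbors 0 1) ≠ Fintype.card (G17.commonNeighbors 0 3) := by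
    decide +kernel
  exact h4 (h1.trans h3.symm)

end Pool.Agent.Results.MP_a93e77_co.NotCharacterised
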